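import Pool.Agent.H32R3.PS.Sv0
import Pool.Agent.H472R2.PalQ9
import Pool.Agent.H476R2.Pal.Sieve2

/-! Task Sv of project H39-PAL5. -/

set_option autoImplicit false

namespace Pool.Agent.H32R3.PS

theorem taskSv : Pool.Agent.H39R3.PS.TaskSv :=
  sv_of Pool.Agent.H472R2.PalQ9.lower2 Pool.Agent.H476R2.Pal.upper2

end Pool.Agent.H32R3.PS
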