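import Pool.Agent.H39R3.PS.Defs
import Pool.Agent.H316R2.LS

/-! Task Sv of project H39-PAL5, with the two sieve theorems as hypotheses. -/

set_option autoImplicit false

namespace Pool.Agent.H32R3.PS

open Finset Filter Topology Pool.Agent.Helper112 Pool.Agent.H39R3.PB Pool.Agent.H39R3.PS
open Pool.Agent.H476R2.Pal (PZ VZ sift rem Rem)

theorem part (n : ℕ) (hn : 1 ≤ n) : ∃ B : ℕ, 1 ≤ B ∧ B.Coprime 10 ∧ B ∣ n ∧
    ∀ q : ℕ, q.Coprime (10 * B) → q.Coprime (10 * n) := by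
  induction n using Nat.strong_induction_on with
  | _ n ih =>
  by_cases h : n.Coprime 10
  · exact ⟨n, hn, h, dvd_rfl, fun q hq => hq⟩
  · obtain ⟨p, hp, hpn, hp10⟩ := Nat.Prime.not_coprime_iff_dvd.1 h
    obtain ⟨m, rfl⟩ := hpn
    have hm : 1 ≤ m := by
      rcases Nat.eq_zero_or_pos m with h0 | h0
      · subst h0; simp at hn
      · exact h0
    have hlt : m < p * m := by nlinarith [hp.two_le]
    obtain ⟨B, h1, h2, h3, h4⟩ := ih m hlt hm
    refine ⟨B, h1, h2, h3.trans (Dvd.intro_left p rfl), fun q hq => ?_⟩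
    have h5 := h4 q hq
    have h6 : q.Coprime 10 := Nat.Coprime.coprime_mul_right_right h5
    have h7 : q.Coprime m := Nat.Coprime.coprime_mul_left_right h5
    have h8 : q.Coprime p := Nat.Coprime.coprime_dvd_right hp10 h6
    exact h6.mul_right (h8.mul_right h7)

theorem pv_coprime {b L : ℕ} (hL : 1 ≤ L) (m : Fin L → Fin b) : (pv b L m).Coprime b := by
  have h1 : b ∣ b ^ (2 * L) := dvd_pow_self b (by omega)
  have h2 : b ∣ ∑ c : Fin L, (m c : ℕ) * fr b L c := by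
    apply Finset.dvd_sum
    intro c _
    apply Dvd.dvd.mul_left
    unfold fr
    split_ifs
    · exact dvd_pow_self b (by omega)
    · have hc := c.2
      exact dvd_add (dvd_pow_self b (by omega)) (dvd_pow_self b (by omega))
  obtain ⟨k, hk⟩ := dvd_add h1 h2
  have h3 : pv b L m = 1 + b * k := by
    unfold pv
    omega
  rw [h3]
  simp

theorem Db_ge_one {b : ℕ} (hb : 1 ≤ b) (L : ℕ) : 1 ≤ Db b L := by
  unfold Db
  apply Real.one_le_rpow (by exact_mod_cast hb)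
  positivity

theorem tendsto_Db {b : ℕ} (hb : 2 ≤ b) : Tendsto (Db b) atTop atTop := by
  apply (tendsto_rpow_atTop_of_base_gt_one (b : ℝ) (by exact_mod_cast (by omega : 1 < b))).comp
  exact (tendsto_natCast_atTop_atTop).const_mul_atTop (by norm_num)

theorem W_bound {b : ℕ} (hb : 1 ≤ b) {L : ℕ} (hL : 1 ≤ L) :
    ∑ e ∈ Icc 1 ⌊Db b L⌋₊, (e.divisors.card : ℝ) ^ 2 / e ≤ ((b : ℝ) + 1) ^ 4 * (L : ℝ) ^ 4 := by
  have h3 := Pool.Agent.H316R2.tau_sq_sum_le ⌊Db b L⌋₊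
  have hb1 : (1 : ℝ) ≤ b := by exact_mod_cast hb
  have hbr : (0 : ℝ) < b := by linarith
  have hL1 : (1 : ℝ) ≤ L := by exact_mod_cast hL
  have hD := Db_ge_one hb L
  have h0 : 1 ≤ ⌊Db b L⌋₊ := Nat.le_floor (by simpa using hD)
  have hlog : 1 + Real.log (⌊Db b L⌋₊ : ℝ) ≤ (b + 1) * L := by
    have hDle : ((⌊Db b L⌋₊ : ℕ) : ℝ) ≤ Db b L := Nat.floor_le (by linarith)
    have h4 : Real.log (⌊Db b L⌋₊ : ℝ) ≤ ((1 / 2 - 1 / 400 : ℝ) * L) * Real.log b := by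
      rw [← Real.log_rpow hbr]
      exact Real.log_le_log (by exact_mod_cast h0) hDle
    have h5 : Real.log b ≤ b := by
      have := Real.log_le_sub_one_of_pos hbr
      linarith
    have h6 : ((1 / 2 - 1 / 400 : ℝ) * L) * Real.log b ≤ (1 / 2 * L) * (b : ℝ) := by
      have h7 : 0 ≤ Real.log b := Real.log_nonneg hb1
      exact mul_le_mul (by nlinarith) h5 h7 (by positivity)
    nlinarith [mul_pos hbr (by linarith : (0 : ℝ) < L)]
  have hlog0 : 0 ≤ 1 + Real.log (⌊Db b L⌋₊ : ℝ) := by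
    have := Real.log_natCast_nonneg ⌊Db b L⌋₊
    linarith
  refine h3.trans ?_
  calc (1 + Real.log (⌊Db b L⌋₊ : ℝ)) ^ 4 ≤ (((b : ℝ) + 1) * (L : ℝ)) ^ 4 :=
        pow_le_pow_left₀ hlog0 hlog 4
    _ = ((b : ℝ) + 1) ^ 4 * (L : ℝ) ^ 4 := by ring

theorem sv_of
    (hlow : ∃ D₀ : ℝ, ∀ D : ℝ, D₀ ≤ D → ∀ (ι : Type) (S : Finset ι) (v : ι → ℕ) (X : ℝ), 0 ≤ X →
      95 / 100 * X * VZ ⌈D ^ (1 / 8 : ℝ)⌉₊ - Rem S v X D ≤ sift S v 1 ⌈D ^ (1 / 8 : ℝ)⌉₊)
    (hup : ∃ D₀ : ℝ, ∀ D : ℝ, D₀ ≤ D → ∀ (ι : Type) (S : Finset ι) (v : ι → ℕ) (X : ℝ), 0 ≤ X →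
      ∑ p ∈ (range ⌈D ^ (999 / 1000 : ℝ)⌉₊).filter (fun p : ℕ => p.Prime ∧ ¬ p ∣ 10 ∧ D ^ (1 / 8 : ℝ) ≤ p),
        (1 - Real.log p / (999 / 1000 * Real.log D)) * sift S v p ⌈D ^ (1 / 8 : ℝ)⌉₊ ≤
        3 / 2 * X * VZ ⌈D ^ (1 / 8 : ℝ)⌉₊ + Rem S v X D) : TaskSv := by
  intro hTr hFiv b hb4 hb2 hBV
  obtain ⟨D₁, hlow⟩ := hlow
  obtain ⟨D₂, hup⟩ := hup
  obtain ⟨B, hB1, hB10, hBb, hBcop⟩ := part b (by omega)
  have hBr : (0 : ℝ) < B := by exact_mod_cast hB1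
  have hφ : (0 : ℝ) < (B.totient : ℝ) := by exact_mod_cast Nat.totient_pos.2 hB1
  have hbr : (0 : ℝ) < b := by
    have : 0 < b := by omega
    exact_mod_cast this
  have hdn : 0 < dn b := by
    unfold dn
    split_ifs <;> norm_num
  have hc0 : 0 < (B : ℝ) / B.totient := by positivity
  refine ⟨dn b * ((B : ℝ) / B.totient), by positivity, ?_⟩
  have e1 := hFiv b hb4 hb2 hBV 10
  have e2 : ∀ᶠ L : ℕ in atTop, max D₁ D₂ ≤ Db b L := (tendsto_Db (by omega)).eventually_ge_atTop _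
  have e3 : ∀ᶠ L : ℕ in atTop, (B : ℝ) < Db b L ^ (1 / 8 : ℝ) :=
    ((tendsto_rpow_atTop (by norm_num : (0 : ℝ) < 1 / 8)).comp
      (tendsto_Db (by omega : 2 ≤ b))).eventually_gt_atTop _
  have e4 : ∀ᶠ L : ℕ in atTop, (B : ℝ) / B.totient * ((b : ℝ) + 1) ^ 4 ≤ (L : ℝ) :=
    tendsto_natCast_atTop_atTop.eventually_ge_atTop _
  filter_upwards [e1, e2, e3, e4, eventually_ge_atTop 1] with L h1 h2 h3 h4 h5
  have hL1 : (1 : ℝ) ≤ L := by exact_mod_cast h5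
  have hL0 : (0 : ℝ) < L := by linarith
  have hX : 0 ≤ dn b * (b : ℝ) ^ L := by positivity
  obtain ⟨M, v', hM, hs, hR⟩ := hTr B hB1 hB10 (Fin L → Fin b) (S1 b L) (pv b L)
    (dn b * (b : ℝ) ^ L) (Db b L) hX (Db_ge_one (by omega) L)
    (fun m _ => Nat.Coprime.coprime_dvd_right hBb (pv_coprime h5 m))
  have hMr : (0 : ℝ) < M := by exact_mod_cast hM
  set W : ℝ := ∑ q ∈ Icc 1 ⌊Db b L⌋₊, (q.divisors.card : ℝ) ^ 2 / q with hW
  set R : ℝ := ∑ q ∈ (Icc 1 ⌊Db b L⌋₊).filter (fun q => q.Coprime (10 * B)),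
    (q.divisors.card : ℝ) ^ 2 * |rem (S1 b L) (pv b L) (dn b * (b : ℝ) ^ L) q| with hRdef
  have hWb : W ≤ ((b : ℝ) + 1) ^ 4 * (L : ℝ) ^ 4 := W_bound (by omega) h5
  have hRb : R ≤ (b : ℝ) ^ L / (L : ℝ) ^ 10 := by
    refine le_trans ?_ h1
    rw [hRdef]
    apply Finset.sum_le_sum_of_subset_of_nonneg
    · intro q hq
      rw [Finset.mem_filter] at hq ⊢
      exact ⟨hq.1, hBcop q hq.2⟩
    · intro q _ _
      positivity
  have hR0 : 0 ≤ R := Finset.sum_nonneg (fun q _ => by positivity)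
  have hE : (B : ℝ) / B.totient * (W * R) ≤ (b : ℝ) ^ L / (L : ℝ) ^ 3 := by
    have h6 : W * R ≤ (((b : ℝ) + 1) ^ 4 * (L : ℝ) ^ 4) * ((b : ℝ) ^ L / (L : ℝ) ^ 10) :=
      mul_le_mul hWb hRb hR0 (by positivity)
    calc (B : ℝ) / B.totient * (W * R)
        ≤ (B : ℝ) / B.totient * ((((b : ℝ) + 1) ^ 4 * (L : ℝ) ^ 4) * ((b : ℝ) ^ L / (L : ℝ) ^ 10)) :=
          mul_le_mul_of_nonneg_left h6 hc0.le
      _ = ((B : ℝ) / B.totient * ((b : ℝ) + 1) ^ 4) * ((b : ℝ) ^ L / (L : ℝ) ^ 6) := by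
          rw [show (L : ℝ) ^ 10 = (L : ℝ) ^ 4 * (L : ℝ) ^ 6 by ring]
          generalize (B : ℝ) / B.totient = c
          have h7 : (L : ℝ) ≠ 0 := hL0.ne'
          field_simp
      _ ≤ (L : ℝ) * ((b : ℝ) ^ L / (L : ℝ) ^ 6) := mul_le_mul_of_nonneg_right h4 (by positivity)
      _ = (b : ℝ) ^ L / (L : ℝ) ^ 5 := by
          have h7 : (L : ℝ) ≠ 0 := hL0.ne'
          field_simp
      _ ≤ (b : ℝ) ^ L / (L : ℝ) ^ 3 := by
          apply div_le_div_of_nonneg_left (by positivity) (by positivity)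
          exact pow_le_pow_right₀ hL1 (by norm_num)
  have hz : B < zb b L := by
    unfold zb
    exact Nat.lt_ceil.2 h3
  have hXM : 0 ≤ dn b * (b : ℝ) ^ L * M := by positivity
  have hlow' := hlow (Db b L) ((le_max_left _ _).trans h2) ((Fin L → Fin b) × ℕ)
    (S1 b L ×ˢ range M) v' _ hXM
  have hup' := hup (Db b L) ((le_max_right _ _).trans h2) ((Fin L → Fin b) × ℕ)
    (S1 b L ×ˢ range M) v' _ hXM
  rw [show ⌈Db b L ^ (1 / 8 : ℝ)⌉₊ = zb b L from rfl] at hlow' hup'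
  have hφB : (B.totient : ℝ) / B * ((B : ℝ) / B.totient) = 1 := by
    field_simp
  set c : ℝ := (B : ℝ) / B.totient with hc
  set φ' : ℝ := (B.totient : ℝ) / B with hφ'
  set V : ℝ := VZ (zb b L) with hV
  set RM : ℝ := Rem (S1 b L ×ˢ range M) v' (dn b * (b : ℝ) ^ L * M) (Db b L) with hRM
  have hR' : RM ≤ M * (W * R) := by
    have := hR
    rw [mul_assoc] at this
    exact this
  have hcR : c * RM ≤ M * ((b : ℝ) ^ L / (L : ℝ) ^ 3) := by
    calc c * RM ≤ c * (M * (W * R)) := mul_le_mul_of_nonneg_left hR' hc0.le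
      _ = M * (c * (W * R)) := by ring
      _ ≤ M * ((b : ℝ) ^ L / (L : ℝ) ^ 3) := mul_le_mul_of_nonneg_left hE hMr.le
  constructor
  · rw [hs (zb b L) hz 1 (Nat.coprime_one_left B)] at hlow'
    have h6 := mul_le_mul_of_nonneg_left hlow' hc0.le
    have h7 : c * (φ' * M * sift (S1 b L) (pv b L) 1 (zb b L))
        = M * sift (S1 b L) (pv b L) 1 (zb b L) := by
      calc c * (φ' * M * sift (S1 b L) (pv b L) 1 (zb b L))
          = (φ' * c) * (M * sift (S1 b L) (pv b L) 1 (zb b L)) := by ring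
        _ = _ := by rw [hφB, one_mul]
    rw [h7] at h6
    have h8 : (M : ℝ) * (95 / 100 * (dn b * c) * (b : ℝ) ^ L * V - (b : ℝ) ^ L / (L : ℝ) ^ 3)
        ≤ M * sift (S1 b L) (pv b L) 1 (zb b L) := by
      refine le_trans ?_ h6
      have h9 : c * (95 / 100 * (dn b * (b : ℝ) ^ L * M) * V - RM)
          = M * (95 / 100 * (dn b * c) * (b : ℝ) ^ L * V) - c * RM := by ring
      rw [h9]
      linarith
    exact le_of_mul_le_mul_left h8 hMr
  · have hsum : ∑ p ∈ (range ⌈Db b L ^ (999 / 1000 : ℝ)⌉₊).filter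
        (fun p : ℕ => p.Prime ∧ ¬ p ∣ 10 ∧ Db b L ^ (1 / 8 : ℝ) ≤ p),
        (1 - Real.log p / (999 / 1000 * Real.log (Db b L))) *
          sift (S1 b L ×ˢ range M) v' p (zb b L)
        = φ' * M * ∑ p ∈ (range ⌈Db b L ^ (999 / 1000 : ℝ)⌉₊).filter
        (fun p : ℕ => p.Prime ∧ ¬ p ∣ 10 ∧ Db b L ^ (1 / 8 : ℝ) ≤ p),
        (1 - Real.log p / (999 / 1000 * Real.log (Db b L))) *
          sift (S1 b L) (pv b L) p (zb b L) := by
      rw [Finset.mul_sum]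
      apply Finset.sum_congr rfl
      intro p hp
      rw [Finset.mem_filter] at hp
      have hpB : p.Coprime B := by
        rw [Nat.Prime.coprime_iff_not_dvd hp.2.1]
        intro hd
        have h6 : p ≤ B := Nat.le_of_dvd hB1 hd
        have h7 : (p : ℝ) ≤ B := by exact_mod_cast h6
        linarith [hp.2.2.2]
      rw [hs (zb b L) hz p hpB]
      ring
    rw [hsum] at hup'
    set TS : ℝ := ∑ p ∈ (range ⌈Db b L ^ (999 / 1000 : ℝ)⌉₊).filter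
        (fun p : ℕ => p.Prime ∧ ¬ p ∣ 10 ∧ Db b L ^ (1 / 8 : ℝ) ≤ p),
        (1 - Real.log p / (999 / 1000 * Real.log (Db b L))) *
          sift (S1 b L) (pv b L) p (zb b L) with hSig
    have h6 := mul_le_mul_of_nonneg_left hup' hc0.le
    have h7 : c * (φ' * M * TS) = M * TS := by
      calc c * (φ' * M * TS) = (φ' * c) * (M * TS) := by ring
        _ = _ := by rw [hφB, one_mul]
    rw [h7] at h6
    have h8 : (M : ℝ) * TS
        ≤ M * (3 / 2 * (dn b * c) * (b : ℝ) ^ L * V + (b : ℝ) ^ L / (L : ℝ) ^ 3) := by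
      refine h6.trans ?_
      have h9 : c * (3 / 2 * (dn b * (b : ℝ) ^ L * M) * V + RM)
          = M * (3 / 2 * (dn b * c) * (b : ℝ) ^ L * V) + c * RM := by ring
      rw [h9]
      linarith
    exact le_of_mul_le_mul_left h8 hMr

end Pool.Agent.H32R3.PS
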